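import Pool.Agent.Helper42.KS.Goals

set_option autoImplicit false

namespace Pool.Agent.Helper42.KS

open MeasureTheory
open scoped ENNReal NNReal

/-- the k-sphere of radius r in Z^d -/
def Sph (k d : ℕ) (r : ℝ) : Set (Fin d → ℤ) := {m | ∑ i, |(m i : ℝ)| ^ k = r ^ k}

/-- the admissible radii -/
def Radii (k d : ℕ) : Set ℝ := {r | 0 < r ∧ (∃ n : ℕ, r ^ k = n) ∧ (Sph k d r).Nonempty}

/-- the number of lattice points of the sphere -/
noncomputable def Num (k d : ℕ) (r : ℝ) : ℕ := (Sph k d r).ncard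

/-- the averages -/
noncomputable def Avg (k d : ℕ) (f : (Fin d → ℤ) → ℂ) (r : ℝ) (x : Fin d → ℤ) : ℂ :=
  (Num k d r : ℂ)⁻¹ * ∑' y : Sph k d r, f (x - y)

/-- the maximal function -/
noncomputable def Amax (k d : ℕ) (f : (Fin d → ℤ) → ℂ) (x : Fin d → ℤ) : ℝ≥0∞ :=
  ⨆ r ∈ Radii k d, ‖Avg k d f r x‖ₑ

/-- boundedness on l^p(Z^d) -/
def LpBounded (k d : ℕ) (p : ℝ) : Prop :=
  ∃ C : ℝ≥0, ∀ f : (Fin d → ℤ) → ℂ, ∑' x, (Amax k d f x) ^ p ≤ C * ∑' x, ‖f x‖ₑ ^ p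

noncomputable def sphF (k d n : ℕ) : Finset (Fin d → ℤ) :=
  (Fintype.piFinset fun _ => Finset.Icc (-(n : ℤ)) n).filter fun m => ∑ i, |m i| ^ k = n

theorem mem_sphF {k d n : ℕ} (hk : 1 ≤ k) {m : Fin d → ℤ} :
    m ∈ sphF k d n ↔ ∑ i, |m i| ^ k = n := by
  unfold sphF
  simp only [Finset.mem_filter, Fintype.mem_piFinset, Finset.mem_Icc, and_iff_right_iff_imp]
  intro h i
  have h1 : |m i| ^ k ≤ n := by
    rw [← h]
    exact Finset.single_le_sum (f := fun i => |m i| ^ k) (fun j _ => by positivity) (Finset.mem_univ i)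
  have h2 : |m i| ≤ |m i| ^ k := by
    rcases eq_or_lt_of_le (abs_nonneg (m i)) with h0 | h0
    · rw [← h0]; positivity
    · exact le_self_pow₀ (by omega) (by omega)
  have := abs_le.mp (h2.trans h1)
  exact this

theorem mem_orth {k d n : ℕ} (hk : 1 ≤ k) {y : Fin d → ℤ} :
    y ∈ orth k d n ↔ (∀ i, 0 ≤ y i) ∧ ∑ i, y i ^ k = n := by
  unfold orth
  simp only [Finset.mem_filter, Fintype.mem_piFinset, Finset.mem_Icc]
  constructor
  · rintro ⟨h1, h2⟩; exact ⟨fun i => (h1 i).1, h2⟩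
  · rintro ⟨h1, h2⟩
    refine ⟨fun i => ⟨h1 i, ?_⟩, h2⟩
    have h3 : y i ^ k ≤ n := by
      rw [← h2]
      exact Finset.single_le_sum (f := fun i => y i ^ k) (fun j _ => pow_nonneg (h1 j) k)
        (Finset.mem_univ i)
    have h4 : y i ≤ y i ^ k := by
      rcases eq_or_lt_of_le (h1 i) with h0 | h0
      · rw [← h0]; positivity
      · exact le_self_pow₀ (by omega) (by omega)
    exact h4.trans h3

theorem Sph_eq {k d n : ℕ} (hk : 1 ≤ k) {r : ℝ} (hr : r ^ k = n) :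
    Sph k d r = (sphF k d n : Set (Fin d → ℤ)) := by
  ext m
  rw [Finset.mem_coe, mem_sphF hk]
  unfold Sph
  rw [Set.mem_ofPred_eq, hr]
  constructor
  · intro h
    have : ((∑ i, |m i| ^ k : ℤ) : ℝ) = ((n : ℤ) : ℝ) := by push_cast; exact h
    exact_mod_cast this
  · intro h
    have : ((∑ i, |m i| ^ k : ℤ) : ℝ) = ((n : ℤ) : ℝ) := by rw [h]
    push_cast at this
    exact this

theorem Num_eq {k d n : ℕ} (hk : 1 ≤ k) {r : ℝ} (hr : r ^ k = n) :
    Num k d r = (sphF k d n).card := by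
  unfold Num
  rw [Sph_eq hk hr, Set.ncard_coe_finset]

theorem Avg_eq {k d n : ℕ} (hk : 1 ≤ k) {r : ℝ} (hr : r ^ k = n) (f : (Fin d → ℤ) → ℂ)
    (x : Fin d → ℤ) :
    Avg k d f r x = ((sphF k d n).card : ℂ)⁻¹ * ∑ y ∈ sphF k d n, f (x - y) := by
  unfold Avg
  rw [Num_eq hk hr]
  congr 1
  rw [Sph_eq hk hr]
  exact Finset.tsum_subtype (sphF k d n) (fun y => f (x - y))

/-- sign changes -/
def sg {d : ℕ} (e : Fin d → Bool) (y : Fin d → ℤ) : Fin d → ℤ :=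
  fun i => if e i then y i else -y i

theorem sg_sg {d : ℕ} (e : Fin d → Bool) (y : Fin d → ℤ) : sg e (sg e y) = y := by
  ext i; unfold sg; cases e i <;> simp

theorem sg_sub {d : ℕ} (e : Fin d → Bool) (x y : Fin d → ℤ) : sg e (x - y) = sg e x - sg e y := by
  ext i; simp only [sg, Pi.sub_apply]; cases e i <;> simp; ring

theorem orth_subset {k d n : ℕ} (hk : 1 ≤ k) : orth k d n ⊆ sphF k d n := by
  intro y hy
  rw [mem_orth hk] at hy
  rw [mem_sphF hk, ← hy.2]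
  exact Finset.sum_congr rfl fun i _ => by rw [abs_of_nonneg (hy.1 i)]

theorem exists_sg {k d n : ℕ} (hk : 1 ≤ k) {m : Fin d → ℤ} (hm : m ∈ sphF k d n) :
    ∃ e : Fin d → Bool, ∃ y ∈ orth k d n, m = sg e y := by
  refine ⟨fun i => decide (0 ≤ m i), fun i => |m i|, ?_, ?_⟩
  · rw [mem_orth hk]
    exact ⟨fun i => abs_nonneg _, (mem_sphF hk).1 hm⟩
  · ext i
    unfold sg
    by_cases h : 0 ≤ m i
    · simp [h, abs_of_nonneg h]
    · simp only [h, decide_false, Bool.false_eq_true, if_false]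
      rw [abs_of_neg (by omega)]; ring

theorem sphF_subset {k d n : ℕ} (hk : 1 ≤ k) :
    sphF k d n ⊆ (Finset.univ : Finset (Fin d → Bool)).biUnion fun e => (orth k d n).image (sg e) := by
  intro m hm
  obtain ⟨e, y, hy, rfl⟩ := exists_sg hk hm
  rw [Finset.mem_biUnion]
  exact ⟨e, Finset.mem_univ _, Finset.mem_image_of_mem _ hy⟩

theorem card_sphF_le {k d n : ℕ} (hk : 1 ≤ k) :
    (sphF k d n).card ≤ 2 ^ d * (orth k d n).card := by
  refine (Finset.card_le_card (sphF_subset hk)).trans ?_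
  refine Finset.card_biUnion_le.trans ?_
  refine (Finset.sum_le_card_nsmul _ _ (orth k d n).card fun e _ => Finset.card_image_le).trans ?_
  simp

theorem sum_biUnion_le' {ι α : Type*} [DecidableEq ι] [DecidableEq α] (s : Finset ι)
    (t : ι → Finset α) (g : α → ℝ≥0∞) :
    ∑ m ∈ s.biUnion t, g m ≤ ∑ i ∈ s, ∑ m ∈ t i, g m := by
  induction s using Finset.induction_on with
  | empty => simp
  | insert a s ha ih =>
    rw [Finset.biUnion_insert, Finset.sum_insert ha]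
    calc ∑ m ∈ t a ∪ s.biUnion t, g m ≤ ∑ m ∈ t a ∪ s.biUnion t, g m + ∑ m ∈ t a ∩ s.biUnion t, g m :=
          le_self_add
      _ = ∑ m ∈ t a, g m + ∑ m ∈ s.biUnion t, g m := Finset.sum_union_inter
      _ ≤ _ := by gcongr

theorem sum_sphF_le {k d n : ℕ} (hk : 1 ≤ k) (g : (Fin d → ℤ) → ℝ≥0∞) :
    ∑ m ∈ sphF k d n, g m ≤ ∑ e : Fin d → Bool, ∑ y ∈ orth k d n, g (sg e y) := by
  calc ∑ m ∈ sphF k d n, g m ≤ ∑ m ∈ (Finset.univ : Finset (Fin d → Bool)).biUnion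
          (fun e => (orth k d n).image (sg e)), g m := Finset.sum_le_sum_of_subset (sphF_subset hk)
    _ ≤ ∑ e : Fin d → Bool, ∑ m ∈ (orth k d n).image (sg e), g m := by
        exact sum_biUnion_le' _ _ _
    _ ≤ _ := by
        refine Finset.sum_le_sum fun e _ => ?_
        rw [Finset.sum_image]
        intro a _ b _ hab
        have := congrArg (sg e) hab
        simpa [sg_sg] using this

noncomputable def sgE {d : ℕ} (e : Fin d → Bool) : (Fin d → ℤ) ≃ (Fin d → ℤ) where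
  toFun := sg e
  invFun := sg e
  left_inv := sg_sg e
  right_inv := sg_sg e

/-- lower bound for the number of points for all admissible n -/
theorem lower_all {k d n₀ : ℕ} (hk : 1 ≤ k) (hkd : k < d) {c : ℝ} (hc : 0 < c)
    (h : ∀ n : ℕ, n₀ ≤ n → c * (n : ℝ) ^ ((d : ℝ) / k - 1) ≤ (orth k d n).card) :
    ∃ c' : ℝ, 0 < c' ∧ ∀ n : ℕ, (sphF k d n).Nonempty →
      c' * (n : ℝ) ^ ((d : ℝ) / k - 1) ≤ (sphF k d n).card := by
  have he : 0 < (d : ℝ) / k - 1 := by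
    have hk0 : (0 : ℝ) < k := by exact_mod_cast hk
    rw [sub_pos, lt_div_iff₀ hk0, one_mul]
    exact_mod_cast hkd
  have hpos : (0 : ℝ) < ((n₀ : ℝ) + 1) ^ ((d : ℝ) / k - 1) := by positivity
  refine ⟨min c (1 / ((n₀ : ℝ) + 1) ^ ((d : ℝ) / k - 1)), by positivity, fun n hn => ?_⟩
  by_cases hnn : n₀ ≤ n
  · calc min c (1 / ((n₀ : ℝ) + 1) ^ ((d : ℝ) / k - 1)) * (n : ℝ) ^ ((d : ℝ) / k - 1)
        ≤ c * (n : ℝ) ^ ((d : ℝ) / k - 1) := by gcongr; exact min_le_left _ _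
      _ ≤ (orth k d n).card := h n hnn
      _ ≤ (sphF k d n).card := by exact_mod_cast Finset.card_le_card (orth_subset hk)
  · have h1 : (n : ℝ) ^ ((d : ℝ) / k - 1) ≤ ((n₀ : ℝ) + 1) ^ ((d : ℝ) / k - 1) := by
      apply Real.rpow_le_rpow (by positivity) _ he.le
      have : (n : ℝ) ≤ n₀ := by exact_mod_cast (not_le.mp hnn).le
      linarith
    calc min c (1 / ((n₀ : ℝ) + 1) ^ ((d : ℝ) / k - 1)) * (n : ℝ) ^ ((d : ℝ) / k - 1)
        ≤ (1 / ((n₀ : ℝ) + 1) ^ ((d : ℝ) / k - 1)) * ((n₀ : ℝ) + 1) ^ ((d : ℝ) / k - 1) := by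
          gcongr; exact min_le_right _ _
      _ = 1 := by field_simp
      _ ≤ (sphF k d n).card := by exact_mod_cast Finset.card_pos.mpr hn

/-- dyadic scale of n -/
theorem exists_scale {k d n : ℕ} (hk : 1 ≤ k) (hkd : k < d) (hn : 1 ≤ n) :
    ∃ j : ℕ, n < 2 ^ (j * k) ∧
      (2 : ℝ) ^ (j * (d - k)) ≤ 2 ^ (d - k) * (n : ℝ) ^ ((d : ℝ) / k - 1) := by
  have hex : ∃ j : ℕ, n < 2 ^ (j * k) := by
    refine ⟨n, ?_⟩
    calc n < 2 ^ n := Nat.lt_two_pow_self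
      _ ≤ 2 ^ (n * k) := Nat.pow_le_pow_right (by norm_num) (Nat.le_mul_of_pos_right n hk)
  classical
  set j := Nat.find hex with hj
  have h1 : n < 2 ^ (j * k) := Nat.find_spec hex
  have hj0 : j ≠ 0 := by
    intro h0
    rw [h0] at h1
    simp at h1
    omega
  obtain ⟨i, hi⟩ := Nat.exists_eq_succ_of_ne_zero hj0
  have h2 : 2 ^ (i * k) ≤ n := by
    have := Nat.find_min hex (m := i) (by omega)
    omega
  refine ⟨j, h1, ?_⟩
  have hk0 : (0 : ℝ) < k := by exact_mod_cast hk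
  have e1 : (2 : ℝ) ^ (i * (d - k)) = ((2 : ℝ) ^ (i * k)) ^ ((d : ℝ) / k - 1) := by
    rw [← Real.rpow_natCast, ← Real.rpow_natCast, ← Real.rpow_mul (by norm_num)]
    congr 1
    push_cast [Nat.cast_sub hkd.le]
    field_simp
  have he : 0 ≤ (d : ℝ) / k - 1 := by
    rw [sub_nonneg, le_div_iff₀ hk0, one_mul]
    exact_mod_cast hkd.le
  have h3 : (2 : ℝ) ^ (i * (d - k)) ≤ (n : ℝ) ^ ((d : ℝ) / k - 1) := by
    rw [e1]
    apply Real.rpow_le_rpow (by positivity) _ he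
    exact_mod_cast h2
  have e2 : j * (d - k) = (d - k) + i * (d - k) := by rw [hi, Nat.succ_mul, add_comm]
  rw [e2, pow_add]
  gcongr

theorem one_le_of_radii {k n : ℕ} {r : ℝ} (hr : 0 < r) (h : r ^ k = n) : 1 ≤ n := by
  have : (0 : ℝ) < n := by rw [← h]; positivity
  exact_mod_cast this

theorem Avg_le {k d : ℕ} (hk : 1 ≤ k) (hkd : k < d) {c' : ℝ} (hc' : 0 < c')
    (hl : ∀ n : ℕ, (sphF k d n).Nonempty →
      c' * (n : ℝ) ^ ((d : ℝ) / k - 1) ≤ (sphF k d n).card)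
    (f : (Fin d → ℤ) → ℂ) (x : Fin d → ℤ) :
    Amax k d f x ≤ ENNReal.ofReal (2 ^ (d - k) / c') *
      ∑ e : Fin d → Bool, Mp k d (fun z => ‖f (sg e z)‖ₑ) (sg e x) := by
  unfold Amax
  refine iSup₂_le fun r hr => ?_
  obtain ⟨hr0, ⟨n, hn⟩, hne⟩ := hr
  have hn1 : 1 ≤ n := one_le_of_radii hr0 hn
  rw [Sph_eq hk hn] at hne
  have hne' : (sphF k d n).Nonempty := hne
  obtain ⟨j, hj1, hj2⟩ := exists_scale (d := d) hk hkd hn1
  rw [Avg_eq hk hn]
  have hcard : (0 : ℝ) < (sphF k d n).card := by exact_mod_cast Finset.card_pos.mpr hne'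
  have hinv : (((sphF k d n).card : ℝ))⁻¹ ≤ (2 ^ (d - k) / c') * ((2 : ℝ) ^ (j * (d - k)))⁻¹ := by
    rw [inv_le_iff_one_le_mul₀ hcard]
    have h4 := hl n hne'
    have h5 : (2 : ℝ) ^ (j * (d - k)) * c' ≤ 2 ^ (d - k) * (sphF k d n).card := by
      calc (2 : ℝ) ^ (j * (d - k)) * c' ≤ (2 ^ (d - k) * (n : ℝ) ^ ((d : ℝ) / k - 1)) * c' := by
            gcongr
        _ = 2 ^ (d - k) * (c' * (n : ℝ) ^ ((d : ℝ) / k - 1)) := by ring
        _ ≤ _ := by gcongr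
    have h6 : (0 : ℝ) < 2 ^ (j * (d - k)) := by positivity
    rw [div_mul_eq_mul_div, ← div_eq_mul_inv, div_div, div_mul_eq_mul_div, le_div_iff₀ (by positivity)]
    linarith
  have e1 : ‖((sphF k d n).card : ℂ)⁻¹ * ∑ y ∈ sphF k d n, f (x - y)‖ₑ ≤
      ENNReal.ofReal (((sphF k d n).card : ℝ)⁻¹) * ∑ y ∈ sphF k d n, ‖f (x - y)‖ₑ := by
    rw [enorm_mul]
    gcongr
    · rw [← ofReal_norm]
      apply ENNReal.ofReal_le_ofReal
      rw [norm_inv, Complex.norm_natCast]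
    · exact enorm_sum_le _ _
  refine e1.trans ?_
  have e2 : ∑ y ∈ sphF k d n, ‖f (x - y)‖ₑ ≤
      ∑ e : Fin d → Bool, ∑ y ∈ orth k d n, ‖f (sg e (sg e x - y))‖ₑ := by
    refine (sum_sphF_le hk (fun y => ‖f (x - y)‖ₑ)).trans (le_of_eq ?_)
    refine Finset.sum_congr rfl fun e _ => Finset.sum_congr rfl fun y _ => ?_
    rw [sg_sub, sg_sg]
  calc ENNReal.ofReal (((sphF k d n).card : ℝ)⁻¹) * ∑ y ∈ sphF k d n, ‖f (x - y)‖ₑ
      ≤ ENNReal.ofReal ((2 ^ (d - k) / c') * ((2 : ℝ) ^ (j * (d - k)))⁻¹) *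
          ∑ e : Fin d → Bool, ∑ y ∈ orth k d n, ‖f (sg e (sg e x - y))‖ₑ := by gcongr
    _ = ENNReal.ofReal (2 ^ (d - k) / c') * ∑ e : Fin d → Bool, (((2 : ℝ≥0∞) ^ (j * (d - k)))⁻¹ *
          ∑ y ∈ orth k d n, ‖f (sg e (sg e x - y))‖ₑ) := by
        rw [ENNReal.ofReal_mul (by positivity), mul_assoc, ← Finset.mul_sum]
        congr 2
        rw [ENNReal.ofReal_inv_of_pos (by positivity), ENNReal.ofReal_pow (by norm_num)]
        norm_num
    _ ≤ _ := by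
        gcongr with e _
        unfold Mp
        exact le_iSup_of_le j (le_iSup_of_le n (le_iSup_of_le hj1 le_rfl))

theorem bounded_of {k d : ℕ} (hk : 1 ≤ k) (hkd : k < d) {c' : ℝ} (hc' : 0 < c')
    (hl : ∀ n : ℕ, (sphF k d n).Nonempty →
      c' * (n : ℝ) ^ ((d : ℝ) / k - 1) ≤ (sphF k d n).card) {p : ℝ} (hp : 1 ≤ p)
    (hM : ∃ C : ℝ≥0, ∀ f : (Fin d → ℤ) → ℝ≥0∞, ∑' x, (Mp k d f x) ^ p ≤ C * ∑' x, (f x) ^ p) :
    LpBounded k d p := by
  obtain ⟨C, hC⟩ := hM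
  have hp0 : 0 ≤ p := by linarith
  set K : ℝ≥0 := Real.toNNReal (2 ^ (d - k) / c') with hK
  refine ⟨K ^ p * ((Fintype.card (Fin d → Bool) : ℝ≥0) ^ (p - 1) *
    ((Fintype.card (Fin d → Bool) : ℝ≥0) * C)), fun f => ?_⟩
  have h1 : ∀ x, (Amax k d f x) ^ p ≤ (K : ℝ≥0∞) ^ p *
      (((Fintype.card (Fin d → Bool) : ℕ) : ℝ≥0∞) ^ (p - 1) *
        ∑ e : Fin d → Bool, (Mp k d (fun z => ‖f (sg e z)‖ₑ) (sg e x)) ^ p) := by
    intro x
    calc (Amax k d f x) ^ p ≤ ((K : ℝ≥0∞) *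
          ∑ e : Fin d → Bool, Mp k d (fun z => ‖f (sg e z)‖ₑ) (sg e x)) ^ p :=
          ENNReal.rpow_le_rpow (Avg_le hk hkd hc' hl f x) hp0
      _ = (K : ℝ≥0∞) ^ p * (∑ e : Fin d → Bool, Mp k d (fun z => ‖f (sg e z)‖ₑ) (sg e x)) ^ p :=
          ENNReal.mul_rpow_of_nonneg _ _ hp0
      _ ≤ _ := by
          gcongr
          have := ENNReal.rpow_sum_le_const_mul_sum_rpow (Finset.univ : Finset (Fin d → Bool))
            (fun e => Mp k d (fun z => ‖f (sg e z)‖ₑ) (sg e x)) hp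
          simpa using this
  have h2 : ∀ e : Fin d → Bool, ∑' x, (Mp k d (fun z => ‖f (sg e z)‖ₑ) (sg e x)) ^ p ≤
      C * ∑' x, ‖f x‖ₑ ^ p := by
    intro e
    have e1 : ∑' x, (Mp k d (fun z => ‖f (sg e z)‖ₑ) (sg e x)) ^ p =
        ∑' x, (Mp k d (fun z => ‖f (sg e z)‖ₑ) x) ^ p :=
      (sgE e).tsum_eq (fun x => (Mp k d (fun z => ‖f (sg e z)‖ₑ) x) ^ p)
    have e2 : ∑' x, ‖f (sg e x)‖ₑ ^ p = ∑' x, ‖f x‖ₑ ^ p :=
      (sgE e).tsum_eq (fun x => ‖f x‖ₑ ^ p)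
    rw [e1, ← e2]
    exact hC _
  calc ∑' x, (Amax k d f x) ^ p ≤ ∑' x, ((K : ℝ≥0∞) ^ p *
      (((Fintype.card (Fin d → Bool) : ℕ) : ℝ≥0∞) ^ (p - 1) *
        ∑ e : Fin d → Bool, (Mp k d (fun z => ‖f (sg e z)‖ₑ) (sg e x)) ^ p)) :=
        ENNReal.tsum_le_tsum h1
    _ = (K : ℝ≥0∞) ^ p * (((Fintype.card (Fin d → Bool) : ℕ) : ℝ≥0∞) ^ (p - 1) *
        ∑ e : Fin d → Bool, ∑' x, (Mp k d (fun z => ‖f (sg e z)‖ₑ) (sg e x)) ^ p) := by
        rw [ENNReal.tsum_mul_left, ENNReal.tsum_mul_left, Summable.tsum_finsetSum]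
        exact fun _ _ => ENNReal.summable
    _ ≤ (K : ℝ≥0∞) ^ p * (((Fintype.card (Fin d → Bool) : ℕ) : ℝ≥0∞) ^ (p - 1) *
        ∑ e : Fin d → Bool, (C * ∑' x, ‖f x‖ₑ ^ p)) := by
        gcongr with e _
        exact h2 e
    _ = _ := by
        rw [Finset.sum_const, Finset.card_univ, nsmul_eq_mul]
        push_cast
        rw [ENNReal.coe_rpow_of_nonneg _ hp0, ENNReal.coe_rpow_of_nonneg _ (by linarith : 0 ≤ p - 1)]
        push_cast
        ring

/-- the value of the maximal function of a delta function -/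
theorem Amax_delta {k d n : ℕ} (hk : 1 ≤ k) (hn : 1 ≤ n) {x : Fin d → ℤ} (hx : x ∈ sphF k d n) :
    (((sphF k d n).card : ℝ≥0∞))⁻¹ ≤ Amax k d (fun z => if z = 0 then 1 else 0) x := by
  have hk0 : (0 : ℝ) < k := by exact_mod_cast hk
  have hn0 : (0 : ℝ) < n := by exact_mod_cast hn
  set r : ℝ := (n : ℝ) ^ ((1 : ℝ) / k) with hr
  have hr0 : 0 < r := by positivity
  have hrk : r ^ k = n := by
    rw [hr, ← Real.rpow_natCast, ← Real.rpow_mul hn0.le]
    field_simp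
    simp
  have hrad : r ∈ Radii k d := by
    refine ⟨hr0, ⟨n, hrk⟩, ?_⟩
    rw [Sph_eq hk hrk]
    exact ⟨x, hx⟩
  unfold Amax
  refine le_trans ?_ (le_iSup₂_of_le r hrad le_rfl)
  rw [Avg_eq hk hrk]
  have h1 : ∑ y ∈ sphF k d n, (if x - y = 0 then (1 : ℂ) else 0) = 1 := by
    rw [Finset.sum_eq_single x]
    · simp
    · intro y _ hy
      rw [if_neg]
      intro h
      exact hy (sub_eq_zero.mp h).symm
    · intro h; exact absurd hx h
  rw [h1, mul_one, ← ofReal_norm, norm_inv, Complex.norm_natCast, ENNReal.ofReal_inv_of_pos]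
  · simp
  · exact_mod_cast Finset.card_pos.mpr ⟨x, hx⟩

theorem not_bounded_of {k d n₀ : ℕ} (hk : 1 ≤ k) (hkd : k < d) {c C : ℝ} (hc : 0 < c)
    (hl : ∀ n : ℕ, n₀ ≤ n → c * (n : ℝ) ^ ((d : ℝ) / k - 1) ≤ (orth k d n).card)
    (hu : ∀ n : ℕ, 1 ≤ n → ((orth k d n).card : ℝ) ≤ C * (n : ℝ) ^ ((d : ℝ) / k - 1))
    {p : ℝ} (hp : 1 ≤ p) (hpc : p ≤ (d : ℝ) / ((d : ℝ) - k)) : ¬ LpBounded k d p := by
  rintro ⟨K, hK⟩
  have hk0 : (0 : ℝ) < k := by exact_mod_cast hk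
  have hdk : (0 : ℝ) < (d : ℝ) - k := by
    have : (k : ℝ) < d := by exact_mod_cast hkd
    linarith
  have hp0 : 0 ≤ p := by linarith
  have h0 := hK (fun z => if z = 0 then 1 else 0)
  have hsum : ∑' x : Fin d → ℤ, ‖(if x = 0 then (1 : ℂ) else 0)‖ₑ ^ p = 1 := by
    rw [tsum_eq_single 0]
    · simp
    · intro b hb
      rw [if_neg hb, enorm_zero, ENNReal.zero_rpow_of_pos (by linarith)]
  rw [hsum, mul_one] at h0
  -- positivity of the constants
  set C' : ℝ := 2 ^ d * max C 1 with hC'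
  have hC0 : 0 < C' := by positivity
  have hup : ∀ n : ℕ, 1 ≤ n → ((sphF k d n).card : ℝ) ≤ C' * (n : ℝ) ^ ((d : ℝ) / k - 1) := by
    intro n hn
    calc ((sphF k d n).card : ℝ) ≤ ((2 ^ d * (orth k d n).card : ℕ) : ℝ) := by
          exact_mod_cast card_sphF_le hk
      _ = 2 ^ d * ((orth k d n).card : ℝ) := by push_cast; ring
      _ ≤ 2 ^ d * (C * (n : ℝ) ^ ((d : ℝ) / k - 1)) := by gcongr; exact hu n hn
      _ ≤ 2 ^ d * (max C 1 * (n : ℝ) ^ ((d : ℝ) / k - 1)) := by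
          gcongr
          exact le_max_left _ _
      _ = _ := by rw [hC']; ring
  set n₁ := n₀ + 1 with hn₁
  have hne : ∀ n : ℕ, n₁ ≤ n → (sphF k d n).Nonempty := by
    intro n hn
    have h1 := hl n (by omega)
    have h2 : (0 : ℝ) < n := by exact_mod_cast (by omega : 0 < n)
    have h3 : (0 : ℝ) < (orth k d n).card := lt_of_lt_of_le (by positivity) h1
    have h4 : 0 < (orth k d n).card := by exact_mod_cast h3
    exact (Finset.card_pos.mp h4).mono (orth_subset hk)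
  -- each sphere contributes at least const / n
  have hterm : ∀ n : ℕ, n₁ ≤ n → ENNReal.ofReal (C' ^ (1 - p) * (1 / n)) ≤
      ∑ x ∈ sphF k d n, (Amax k d (fun z => if z = 0 then 1 else 0) x) ^ p := by
    intro n hn
    have hn1 : 1 ≤ n := by omega
    have hn0 : (0 : ℝ) < n := by exact_mod_cast hn1
    have hn1' : (1 : ℝ) ≤ n := by exact_mod_cast hn1
    have hcard : (0 : ℝ) < (sphF k d n).card := by exact_mod_cast Finset.card_pos.mpr (hne n hn)
    have e1 : C' ^ (1 - p) * (1 / n) ≤ ((sphF k d n).card : ℝ) * (((sphF k d n).card : ℝ)⁻¹) ^ p := by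
      have e2 : ((sphF k d n).card : ℝ) * (((sphF k d n).card : ℝ)⁻¹) ^ p =
          ((sphF k d n).card : ℝ) ^ (1 - p) := by
        rw [Real.rpow_sub hcard, Real.rpow_one, Real.inv_rpow hcard.le]
        rfl
      rw [e2]
      have e3 : (C' * (n : ℝ) ^ ((d : ℝ) / k - 1)) ^ (1 - p) ≤ ((sphF k d n).card : ℝ) ^ (1 - p) :=
        Real.rpow_le_rpow_of_nonpos hcard (hup n hn1) (by linarith)
      refine le_trans ?_ e3
      rw [Real.mul_rpow hC0.le (by positivity), ← Real.rpow_mul hn0.le]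
      gcongr
      rw [one_div, ← Real.rpow_neg_one]
      apply Real.rpow_le_rpow_of_exponent_le hn1'
      have e4 : ((d : ℝ) / k - 1) = ((d : ℝ) - k) / k := by field_simp
      have e5 : p - 1 ≤ k / ((d : ℝ) - k) := by
        have : (d : ℝ) / ((d : ℝ) - k) = 1 + k / ((d : ℝ) - k) := by field_simp; ring
        rw [this] at hpc
        linarith
      have e6 : ((d : ℝ) - k) / k * (p - 1) ≤ 1 := by
        calc ((d : ℝ) - k) / k * (p - 1) ≤ ((d : ℝ) - k) / k * (k / ((d : ℝ) - k)) := by gcongr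
          _ = 1 := by field_simp
      rw [e4]
      nlinarith
    calc ENNReal.ofReal (C' ^ (1 - p) * (1 / n))
        ≤ ENNReal.ofReal (((sphF k d n).card : ℝ) * (((sphF k d n).card : ℝ)⁻¹) ^ p) :=
          ENNReal.ofReal_le_ofReal e1
      _ = ∑ x ∈ sphF k d n, (((sphF k d n).card : ℝ≥0∞)⁻¹) ^ p := by
          rw [Finset.sum_const, nsmul_eq_mul, ENNReal.ofReal_mul hcard.le,
            ← ENNReal.ofReal_rpow_of_pos (by positivity), ENNReal.ofReal_inv_of_pos hcard]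
          simp
      _ ≤ _ := by
          gcongr with x hx
          exact Amax_delta hk hn1 hx
  -- sum over the spheres
  have hdisj : ∀ N : ℕ, ∑ n ∈ Finset.Ico n₁ N, ENNReal.ofReal (C' ^ (1 - p) * (1 / n)) ≤ K := by
    intro N
    calc ∑ n ∈ Finset.Ico n₁ N, ENNReal.ofReal (C' ^ (1 - p) * (1 / n))
        ≤ ∑ n ∈ Finset.Ico n₁ N, ∑ x ∈ sphF k d n,
            (Amax k d (fun z => if z = 0 then 1 else 0) x) ^ p :=
          Finset.sum_le_sum fun n hn => hterm n (Finset.mem_Ico.mp hn).1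
      _ = ∑ x ∈ (Finset.Ico n₁ N).biUnion (fun n => sphF k d n),
            (Amax k d (fun z => if z = 0 then 1 else 0) x) ^ p := by
          rw [Finset.sum_biUnion]
          intro a _ b _ hab
          rw [Function.onFun, Finset.disjoint_left]
          intro x hxa hxb
          rw [mem_sphF hk] at hxa hxb
          rw [hxa] at hxb
          exact hab (by exact_mod_cast hxb)
      _ ≤ ∑' x, (Amax k d (fun z => if z = 0 then 1 else 0) x) ^ p := ENNReal.sum_le_tsum _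
      _ ≤ K := h0
  have hreal : ∀ N : ℕ, ∑ n ∈ Finset.Ico n₁ N, (C' ^ (1 - p) * (1 / (n : ℝ))) ≤ K := by
    intro N
    have h1 := hdisj N
    rw [← ENNReal.ofReal_sum_of_nonneg (fun n _ => by positivity)] at h1
    have h2 := ENNReal.toReal_mono (by simp) h1
    rw [ENNReal.toReal_ofReal (Finset.sum_nonneg fun n _ => by positivity)] at h2
    simpa using h2
  -- divergence of the harmonic series
  have hdiv : Filter.Tendsto (fun N : ℕ => ∑ n ∈ Finset.Ico n₁ N, (C' ^ (1 - p) * (1 / (n : ℝ))))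
      Filter.atTop Filter.atTop := by
    have h1 : Filter.Tendsto (fun N : ℕ => ∑ n ∈ Finset.range N, (1 / ((n : ℝ)))) Filter.atTop
        Filter.atTop := by
      have := (Real.tendsto_sum_range_one_div_nat_succ_atTop)
      have h2 : (fun N : ℕ => ∑ n ∈ Finset.range (N + 1), (1 / (n : ℝ))) =
          fun N : ℕ => ∑ i ∈ Finset.range N, (1 / ((i : ℝ) + 1)) := by
        funext N
        rw [Finset.sum_range_succ']
        simp
      rw [← Filter.tendsto_add_atTop_iff_nat 1, h2]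
      exact this
    have h3 : Filter.Tendsto (fun N : ℕ => C' ^ (1 - p) * (∑ n ∈ Finset.range N, (1 / (n : ℝ)) -
        ∑ n ∈ Finset.range n₁, (1 / (n : ℝ)))) Filter.atTop Filter.atTop :=
      Filter.Tendsto.const_mul_atTop (by positivity) (Filter.tendsto_atTop_add_const_right _ _ h1)
    refine h3.congr' ?_
    filter_upwards [Filter.eventually_ge_atTop n₁] with N hN
    rw [← Finset.mul_sum, Finset.sum_Ico_eq_sub _ hN]
  obtain ⟨N, hN⟩ := (hdiv.eventually_gt_atTop (K : ℝ)).exists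
  linarith [hreal N]

theorem final (hR : G_RWT) (hS : G_ST) (hN : G_NB) :
    ∀ k : ℕ, 3 ≤ k → ∃ d₁ : ℕ, ∀ d : ℕ, d₁ ≤ d →
      (∃ c C r₀ : ℝ, 0 < c ∧ ∀ r ∈ Radii k d, r₀ ≤ r →
        c * r ^ ((d : ℝ) - k) ≤ Num k d r ∧ (Num k d r : ℝ) ≤ C * r ^ ((d : ℝ) - k)) ∧
      ∀ p : ℝ, 1 ≤ p → (LpBounded k d p ↔ (d : ℝ) / ((d : ℝ) - k) < p) := by
  intro k hk
  obtain ⟨D₁, h₁⟩ := hR k hk
  obtain ⟨D₂, h₂⟩ := hN k hk
  refine ⟨max (max D₁ D₂) (k + 1), fun d hd => ?_⟩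
  have hd₁ : D₁ ≤ d := le_trans (le_trans (le_max_left _ _) (le_max_left _ _)) hd
  have hd₂ : D₂ ≤ d := le_trans (le_trans (le_max_right _ _) (le_max_left _ _)) hd
  have hkd : k < d := le_trans (le_max_right _ _) hd
  have hk1 : 1 ≤ k := by omega
  obtain ⟨c, C, n₀, hc, hlow, hup, hup2⟩ := h₂ d hd₂
  have hk0 : (0 : ℝ) < k := by exact_mod_cast hk1
  have hdk : (0 : ℝ) < (d : ℝ) - k := by
    have : (k : ℝ) < d := by exact_mod_cast hkd
    linarith
  constructor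
  · refine ⟨c, 2 ^ d * max C 1, (n₀ : ℝ) + 1, hc, ?_⟩
    rintro r ⟨hr0, ⟨n, hn⟩, _⟩ hr
    have hn1 : 1 ≤ n := one_le_of_radii hr0 hn
    rw [Num_eq hk1 hn]
    have hrn : (n₀ : ℝ) ≤ n := by
      rw [← hn]
      have h1 : r ≤ r ^ k := le_self_pow₀ (by
        have : (0 : ℝ) ≤ n₀ := by positivity
        linarith) (by omega)
      linarith
    have e1 : r ^ ((d : ℝ) - k) = (n : ℝ) ^ ((d : ℝ) / k - 1) := by
      rw [← hn, ← Real.rpow_natCast r k, ← Real.rpow_mul hr0.le]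
      congr 1
      field_simp
    rw [e1]
    constructor
    · exact (hlow n (by exact_mod_cast hrn)).trans
        (by exact_mod_cast Finset.card_le_card (orth_subset hk1))
    · calc ((sphF k d n).card : ℝ) ≤ ((2 ^ d * (orth k d n).card : ℕ) : ℝ) := by
            exact_mod_cast card_sphF_le hk1
        _ = 2 ^ d * ((orth k d n).card : ℝ) := by push_cast; ring
        _ ≤ 2 ^ d * (C * (n : ℝ) ^ ((d : ℝ) / k - 1)) := by gcongr; exact hup n hn1
        _ ≤ 2 ^ d * (max C 1 * (n : ℝ) ^ ((d : ℝ) / k - 1)) := by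
            gcongr
            exact le_max_left _ _
        _ = _ := by ring
  · intro p hp
    constructor
    · intro hb
      by_contra hcon
      exact not_bounded_of hk1 hkd hc hlow hup hp (not_lt.mp hcon) hb
    · intro hpc
      obtain ⟨c', hc', hl'⟩ := lower_all hk1 hkd hc hlow
      set pc : ℝ := (d : ℝ) / ((d : ℝ) - k) with hpcdef
      have hpc1 : 1 ≤ pc := by
        rw [hpcdef, one_le_div₀ hdk]
        linarith
      set p₀ := (pc + p) / 2 with hp₀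
      have h3 : RWT k d p₀ := h₁ d hd₁ p₀ (by linarith)
      exact bounded_of hk1 hkd hc' hl' hp
        (hS k d p₀ p hk1 hkd (by linarith) (by linarith) h3 ⟨C, hup2⟩)

end Pool.Agent.Helper42.KS
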