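import Mathlib

set_option autoImplicit false

/-!
# MP_40ec72_an: sharp range for the arithmetic k-spherical maximal function in high dimension

Goal: for every k >= 3 there is d1(k) such that for all d >= d1(k) the maximal operator is bounded on
l^p(Z^d) for EVERY p > d/(d-k).  Paper proof: team store `MP_40ec72_proof.md`.
-/

namespace Pool.Agent.Helper42.KS

open MeasureTheory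
open scoped ENNReal NNReal

/-- `e(t) = exp(2 pi i t)` -/
noncomputable def ee (t : ℝ) : ℂ := Complex.exp ((2 * Real.pi * t : ℝ) * Complex.I)

/-- `t` is within `δ` of an integer -/
def near (t δ : ℝ) : Prop := ∃ a : ℤ, |t - a| ≤ δ

/-- `min (R, 1 / (2 ‖t‖))` where `‖t‖` is the distance to the nearest integer -/
noncomputable def mn (R t : ℝ) : ℝ :=
  if 2 * |t - round t| * R ≤ 1 then R else 1 / (2 * |t - round t|)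

/-- `[0,R)^d` -/
noncomputable def box (d R : ℕ) : Finset (Fin d → ℤ) := Fintype.piFinset fun _ => Finset.Ico 0 (R : ℤ)

/-- `[-R,R)^d` -/
noncomputable def sbox (d R : ℕ) : Finset (Fin d → ℤ) := Fintype.piFinset fun _ => Finset.Ico (-(R : ℤ)) R

/-! ## Weyl sums -/

/-- Weyl differencing -/
def G_DIFF : Prop :=
  ∀ (n R : ℕ), 2 ≤ n → 1 ≤ R → ∀ P : Polynomial ℝ, P.natDegree ≤ n → ∀ u v : ℤ, v - u ≤ R →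
    ‖∑ x ∈ Finset.Ico u v, ee (P.eval (x : ℝ))‖ ^ (2 ^ (n - 1)) ≤
      (2 * R : ℝ) ^ (2 ^ (n - 1) - n) *
        ∑ h ∈ Fintype.piFinset (fun _ : Fin (n - 1) => Finset.Ioo (-(R : ℤ)) R),
          mn R (n.factorial * P.coeff n * ∏ i, (h i : ℝ))

/-- the sum of `min (R, 1/‖αz‖)` -/
def G_MSUM : Prop :=
  ∃ C : ℝ, ∀ (α R : ℝ) (q X : ℕ) (a : ℤ), 1 ≤ R → 1 ≤ q → 1 ≤ X → IsCoprime a (q : ℤ) →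
    |α - a / q| ≤ 1 / (q : ℝ) ^ 2 →
    ∑ z ∈ Finset.Icc 1 X, mn R (α * z) ≤ C * ((X : ℝ) / q + 1) * (R + q * (1 + Real.log q))

/-- divisor bound -/
def G_DIVB : Prop :=
  ∀ (l : ℕ) (ε : ℝ), 0 < ε → ∃ C : ℝ, ∀ z : ℕ, 1 ≤ z →
    (((Fintype.piFinset (fun _ : Fin l => Finset.Icc 1 z)).filter
      (fun h => ∏ i, h i = z)).card : ℝ) ≤ C * (z : ℝ) ^ ε

/-- Weyl's inequality in inverse form -/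
def G_WEYL : Prop :=
  ∀ (n : ℕ) (σ : ℝ), 2 ≤ n → 0 < σ → 2 ^ n * σ ≤ 1 → ∃ R₀ : ℕ, ∀ R : ℕ, R₀ ≤ R →
    ∀ P : Polynomial ℝ, P.natDegree ≤ n → ∀ u v : ℤ, v - u ≤ R →
      (R : ℝ) ^ (1 - σ) ≤ ‖∑ x ∈ Finset.Ico u v, ee (P.eval (x : ℝ))‖ →
      ∃ q : ℕ, 1 ≤ q ∧ (q : ℝ) ≤ (R : ℝ) ^ (2 ^ n * σ) ∧
        near (q * P.coeff n) ((R : ℝ) ^ (-(n : ℝ) + 2 ^ n * σ))

/-! ## The counting argument for sparse sets -/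

/-- number of points of `E` on the part `{y ≤ x, Σ (x_i - y_i)^k = n}` of the k-sphere about `x` -/
def hits {d : ℕ} (k : ℕ) (E : Finset (Fin d → ℤ)) (x : Fin d → ℤ) (n : ℤ) : ℕ :=
  (E.filter fun y => (∀ i, y i ≤ x i) ∧ ∑ i, (x i - y i) ^ k = n).card

/-- the points `x` of `[0,R)^d` equidistant from `y 0, ..., y l` (and `≥` all of them) -/
noncomputable def eqd (k R l : ℕ) {d : ℕ} (y : Fin (l + 1) → Fin d → ℤ) : Finset (Fin d → ℤ) :=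
  (box d R).filter (fun x => (∀ i ν, y i ν ≤ x ν) ∧
    ∀ i, ∑ ν, (x ν - y i ν) ^ k = ∑ ν, (x ν - y 0 ν) ^ k)

/-- number of pairs (x, (y_0..y_l)) with `y_i ∈ E` and x equidistant from all y_i -/
noncomputable def coin (k R l : ℕ) {d : ℕ} (E : Finset (Fin d → ℤ)) : ℕ :=
  ∑ y ∈ Fintype.piFinset (fun _ : Fin (l + 1) => E), (eqd k R l y).card

/-- one coordinate exponential sum -/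
noncomputable def Wv (k R l : ℕ) {d : ℕ} (y : Fin (l + 1) → Fin d → ℤ) (α : Fin l → ℝ)
    (ν : Fin d) : ℂ :=
  ∑ x ∈ (Finset.Ico 0 (R : ℤ)).filter (fun x => ∀ i, y i ν ≤ x),
    ee (∑ i : Fin l, α i * (((x - y i.succ ν) ^ k - (x - y 0 ν) ^ k : ℤ) : ℝ))

/-- resonance of the coordinate `ν` -/
def res (k R l : ℕ) (s : ℝ) {d : ℕ} (y : Fin (l + 1) → Fin d → ℤ) (α : Fin l → ℝ)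
    (ν : Fin d) : Prop :=
  ∃ q : ℕ, 1 ≤ q ∧ (q : ℝ) ≤ (R : ℝ) ^ s ∧
    near (k * q * ∑ i : Fin l, α i * ((y i.succ ν - y 0 ν : ℤ) : ℝ))
      ((R : ℝ) ^ (-((k : ℝ) - 1) + s))

open Classical in
/-- `α` is rich: many integers `y` in `[-R,R)` with `k q α y + c` extremely close to an integer -/
def rich (k R : ℕ) (s t : ℝ) (α : ℝ) : Prop :=
  ∃ q : ℕ, 1 ≤ q ∧ (q : ℝ) ≤ (R : ℝ) ^ s ∧ ∃ c : ℝ,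
    (R : ℝ) ^ (1 - t) < (((Finset.Ico (-(R : ℤ)) R).filter
      (fun y : ℤ => near (k * q * α * y + c) ((R : ℝ) ^ (-((k : ℝ) - 1) + s)))).card : ℝ)

def G_SM : Prop :=
  ∀ (k R d : ℕ) (E : Finset (Fin d → ℤ)), 2 ≤ k → 1 ≤ R → 1 ≤ d →
    (coin k R 1 E : ℝ) ≤ E.card * (R : ℝ) ^ d + ((k : ℝ) - 1) * (E.card : ℝ) ^ 2 * (R : ℝ) ^ (d - 1)

def G_INT : Prop :=
  ∀ (k R l d : ℕ) (y : Fin (l + 1) → Fin d → ℤ),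
    ((eqd k R l y).card : ℝ) ≤
      ∫ α in Set.pi Set.univ (fun _ : Fin l => Set.Icc (0 : ℝ) 1), ∏ ν, ‖Wv k R l y α ν‖

def G_WC : Prop :=
  ∀ (k : ℕ) (σ : ℝ), 3 ≤ k → 0 < σ → 2 ^ (k - 1) * σ ≤ 1 → ∃ R₀ : ℕ, ∀ R : ℕ, R₀ ≤ R →
    ∀ (l d : ℕ) (y : Fin (l + 1) → Fin d → ℤ) (α : Fin l → ℝ) (ν : Fin d),
      (R : ℝ) ^ (1 - σ) ≤ ‖Wv k R l y α ν‖ → res k R l (2 ^ (k - 1) * σ) y α ν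

open Classical in
def G_PR : Prop :=
  ∀ (k R l d : ℕ) (E : Finset (Fin d → ℤ)) (s t : ℝ) (α : Fin l → ℝ) (i₀ : Fin l) (S : ℕ),
    1 ≤ R → 0 ≤ s → t ≤ 1 → E ⊆ sbox d R → ¬ rich k R s t (α i₀) →
    (((Fintype.piFinset (fun _ : Fin (l + 1) => E)).filter
      (fun y => (Finset.univ.filter (fun ν : Fin d => ¬ res k R l s y α ν)).card < S)).card : ℝ) ≤
      (E.card : ℝ) ^ l * 2 ^ d * (2 * R : ℝ) ^ S * ((R : ℝ) ^ (s + 1 - t)) ^ d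

def G_ME : Prop :=
  ∀ (k : ℕ) (s : ℝ), 3 ≤ k → 0 < s → s ≤ 1 / 4 → ∃ C : ℝ, ∀ (R : ℕ) (t : ℝ), 1 ≤ R → 0 ≤ t →
    t ≤ 1 → volume (Set.Icc (0 : ℝ) 1 ∩ {α | rich k R s t α}) ≤
      ENNReal.ofReal (C * (R : ℝ) ^ (-(k : ℝ) + 2 * t + 2 * s))

def G_BG : Prop :=
  ∀ (k : ℕ) (κ : ℝ), 3 ≤ k → 0 < κ → κ < 1 → ∃ l : ℕ, 1 ≤ l ∧ ∃ D : ℕ, ∀ d : ℕ, D ≤ d →
    ∃ R₀ : ℕ, ∀ R : ℕ, R₀ ≤ R → ∀ E : Finset (Fin d → ℤ), E ⊆ sbox d R →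
      (R : ℝ) ^ ((d : ℝ) / (2 * k)) ≤ E.card → (E.card : ℝ) ≤ (R : ℝ) ^ ((1 - κ) * d) →
      (coin k R l E : ℝ) ≤ (R : ℝ) ^ d * (E.card : ℝ) ^ (((l : ℝ) + 1) * (1 - (k : ℝ) / d))

def G_C2 : Prop :=
  ∀ (k : ℕ) (κ : ℝ), 3 ≤ k → 0 < κ → κ < 1 → ∃ D : ℕ, ∀ d : ℕ, D ≤ d → ∃ C : ℝ,
    ∀ (j : ℕ) (lam : ℝ) (E F : Finset (Fin d → ℤ)), 0 < lam → lam ≤ 1 →
      1 ≤ lam * (2 : ℝ) ^ (j * (d - k)) → lam ≤ ((2 : ℝ) ^ (j * (d - k))) ^ (-κ) →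
      (∀ x ∈ F, ∃ n : ℤ, n < 2 ^ (j * k) ∧ lam * (2 : ℝ) ^ (j * (d - k)) < hits k E x n) →
      (F.card : ℝ) ≤ C * lam ^ (-((d : ℝ) / ((d : ℝ) - k))) * E.card

def G_C1 : Prop :=
  ∀ (k d : ℕ) (lam : ℝ) (E F : Finset (Fin d → ℤ)), 1 ≤ k → k < d → 0 < lam → lam ≤ 1 →
    (∀ x ∈ F, ∃ (j : ℕ) (n : ℤ), n < 2 ^ (j * k) ∧ lam * (2 : ℝ) ^ (j * (d - k)) < 1 ∧
      0 < hits k E x n) →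
    (F.card : ℝ) ≤ lam ^ (-((d : ℝ) / ((d : ℝ) - k))) * E.card

def G_C3 : Prop :=
  ∀ k : ℕ, 3 ≤ k → ∃ κ : ℝ, 0 < κ ∧ κ < 1 ∧ ∃ D : ℕ, ∀ d : ℕ, D ≤ d → ∀ ε : ℝ, 0 < ε →
    ∃ C : ℝ, ∀ (lam : ℝ) (E F : Finset (Fin d → ℤ)), 0 < lam → lam ≤ 1 →
      (∀ x ∈ F, ∃ (j : ℕ) (n : ℤ), n < 2 ^ (j * k) ∧
        ((2 : ℝ) ^ (j * (d - k))) ^ (-κ) ≤ lam ∧ lam * (2 : ℝ) ^ (j * (d - k)) < hits k E x n) →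
      (F.card : ℝ) ≤ C * lam ^ (-((d : ℝ) / ((d : ℝ) - k)) - ε) * E.card

/-- restricted weak type (p,p) for the orthant maximal function -/
def RWT (k d : ℕ) (p : ℝ) : Prop :=
  ∃ C : ℝ, ∀ (lam : ℝ) (E F : Finset (Fin d → ℤ)), 0 < lam → lam ≤ 1 →
    (∀ x ∈ F, ∃ (j : ℕ) (n : ℤ), n < 2 ^ (j * k) ∧
      lam * (2 : ℝ) ^ (j * (d - k)) < hits k E x n) →
    (F.card : ℝ) ≤ C * lam ^ (-p) * E.card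

def G_RWT : Prop :=
  ∀ k : ℕ, 3 ≤ k → ∃ D : ℕ, ∀ d : ℕ, D ≤ d → ∀ p : ℝ, (d : ℝ) / ((d : ℝ) - k) < p → RWT k d p

/-! ## From restricted weak type to strong type -/

/-- orthant sphere -/
noncomputable def orth (k d n : ℕ) : Finset (Fin d → ℤ) :=
  (Fintype.piFinset fun _ => Finset.Icc 0 (n : ℤ)).filter fun y => ∑ i, y i ^ k = n

/-- the orthant maximal function -/
noncomputable def Mp (k d : ℕ) (f : (Fin d → ℤ) → ℝ≥0∞) (x : Fin d → ℤ) : ℝ≥0∞ :=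
  ⨆ (j : ℕ) (n : ℕ) (_ : n < 2 ^ (j * k)),
    ((2 : ℝ≥0∞) ^ (j * (d - k)))⁻¹ * ∑ y ∈ orth k d n, f (x - y)

def G_ST : Prop :=
  ∀ (k d : ℕ) (p₀ p : ℝ), 1 ≤ k → k < d → 1 ≤ p₀ → p₀ < p → RWT k d p₀ →
    (∃ C : ℝ, ∀ j n : ℕ, n < 2 ^ (j * k) → ((orth k d n).card : ℝ) ≤ C * 2 ^ (j * (d - k))) →
    ∃ C : ℝ≥0, ∀ f : (Fin d → ℤ) → ℝ≥0∞, ∑' x, (Mp k d f x) ^ p ≤ C * ∑' x, (f x) ^ p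

/-! ## Exponential sums and integrals -/

noncomputable def fS (k R : ℕ) (α ξ : ℝ) : ℂ :=
  ∑ y ∈ Finset.range R, ee (α * (y : ℝ) ^ k + ξ * y)

noncomputable def VV (k : ℕ) (B Θ : ℝ) : ℂ := ∫ s in (0 : ℝ)..1, ee (B * s ^ k + Θ * s)

noncomputable def GG (k : ℕ) (a : ℤ) (q : ℕ) (b : ℤ) : ℂ :=
  (q : ℂ)⁻¹ * ∑ y ∈ Finset.range q, ee ((a * (y : ℝ) ^ k + b * y) / q)

noncomputable def pq (k : ℕ) (a : ℤ) (q : ℕ) (ξ : ℝ) : ℂ :=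
  (q : ℂ)⁻¹ * ∑ y ∈ Finset.range q, ee (a * (y : ℝ) ^ k / q + ξ * y)

def G_MOR : Prop :=
  ∀ k : ℕ, 3 ≤ k → ∃ C : ℝ, ∀ (p : ℕ) (a b : ℤ), p.Prime → ¬ (p : ℤ) ∣ a →
    ‖GG k a p b‖ ≤ C * (p : ℝ) ^ (-(1 / (k : ℝ)))

def G_GPP : Prop :=
  ∀ k : ℕ, 3 ≤ k → ∃ C : ℝ, 1 ≤ C ∧ ∀ (p j : ℕ) (a b : ℤ), p.Prime → ¬ (p : ℤ) ∣ a →
    ‖GG k a (p ^ j) b‖ ≤ C * ((p : ℝ) ^ j) ^ (-(1 / (k : ℝ)))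

def G_GM : Prop :=
  ∀ (k q₁ q₂ : ℕ) (a b : ℤ), 1 ≤ k → 1 ≤ q₁ → 1 ≤ q₂ → Nat.Coprime q₁ q₂ →
    GG k a (q₁ * q₂) b = GG k (a * (q₂ : ℤ) ^ (k - 1)) q₁ b * GG k (a * (q₁ : ℤ) ^ (k - 1)) q₂ b

def G_GB : Prop :=
  ∀ (k : ℕ) (ε : ℝ), 3 ≤ k → 0 < ε → ∃ C : ℝ, ∀ (q : ℕ) (a b : ℤ), 1 ≤ q → IsCoprime a (q : ℤ) →
    ‖GG k a q b‖ ≤ C * (q : ℝ) ^ (-(1 / (k : ℝ)) + ε)

def G_PQ : Prop :=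
  ∀ (k : ℕ) (ε : ℝ), 3 ≤ k → 0 < ε → ∃ C : ℝ, ∀ (q : ℕ) (a : ℤ) (ξ : ℝ), 1 ≤ q →
    IsCoprime a (q : ℤ) → ‖pq k a q ξ‖ ≤ C * (q : ℝ) ^ (-(1 / (k : ℝ)) + ε)

def G_V1 : Prop :=
  ∀ k : ℕ, 2 ≤ k → ∃ C : ℝ, ∀ B Θ : ℝ, ‖VV k B Θ‖ ≤ C * (1 + |B|) ^ (-(1 / (k : ℝ)))

def G_V2 : Prop :=
  ∀ k : ℕ, 1 ≤ k → ∃ C : ℝ, ∀ B Θ : ℝ, ‖VV k B Θ‖ ≤ C * ((1 + |B|) / (1 + |Θ|)) ∧
    ‖VV k B Θ - VV k B 0‖ ≤ C * |Θ|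

def G_LOW : Prop :=
  ∀ k d : ℕ, 2 ≤ k → k < d → ∃ C : ℝ, ∀ N M : ℝ, 0 ≤ N →
    ∫ B in {B : ℝ | N < |B| ∧ |B| ≤ M}, ‖VV k B 0‖ ^ d ≤ C * (1 + N) ^ (1 - (d : ℝ) / k)

/-- Riemann sum approximation on the major arcs -/
def G_RS : Prop :=
  ∀ k : ℕ, 2 ≤ k → ∃ C : ℝ, ∀ (R q : ℕ) (a b : ℤ) (B θ : ℝ), 1 ≤ R → 1 ≤ q →
    (q : ℝ) ≤ (R : ℝ) ^ (1 / 16 : ℝ) → |B| ≤ (R : ℝ) ^ (1 / 16 : ℝ) → |θ| ≤ 1 / (2 * q) →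
    ‖(R : ℂ)⁻¹ * fS k R (a / q + B / (R : ℝ) ^ k) (b / q + θ) - GG k a q b * VV k B (R * θ)‖ ≤
      C * (R : ℝ) ^ (-(1 / 4) : ℝ)

/-- the size parameter on the major arcs -/
noncomputable def AA (k q : ℕ) (ε B : ℝ) : ℝ :=
  (q : ℝ) ^ (-(1 / (k : ℝ)) + ε) * (1 + |B|) ^ (-(1 / (k : ℝ)) + ε)

/-- normalised one dimensional multiplier -/
noncomputable def uu (k R q : ℕ) (a : ℤ) (B ξ : ℝ) : ℂ :=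
  (R : ℂ)⁻¹ * fS k R (a / q + B / (R : ℝ) ^ k) ξ

/-- one dimensional comparison multiplier -/
noncomputable def vv (k R q : ℕ) (a : ℤ) (B ξ : ℝ) : ℂ :=
  VV k B 0 * (((q * (R / q) : ℕ) : ℂ)⁻¹ * fS k (q * (R / q)) (a / q) ξ)

def G_ONE : Prop :=
  ∀ (k : ℕ) (ε : ℝ), 3 ≤ k → 0 < ε → ∃ C c : ℝ, 0 < c ∧
    ∀ (R q : ℕ) (a b : ℤ) (B θ : ℝ), 1 ≤ R → 1 ≤ q → IsCoprime a (q : ℤ) →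
    (q : ℝ) ≤ (R : ℝ) ^ (1 / 16 : ℝ) → |B| ≤ (R : ℝ) ^ (1 / 16 : ℝ) → |θ| ≤ 1 / (2 * q) →
    ‖uu k R q a B (b / q + θ)‖ ≤ C * AA k q ε B ∧ ‖vv k R q a B (b / q + θ)‖ ≤ C * AA k q ε B ∧
    ‖uu k R q a B (b / q + θ) - vv k R q a B (b / q + θ)‖ ≤
      C * AA k q ε B * ((R * |θ|) ^ c + (R : ℝ) ^ (-c)) ∧
    (1 ≤ R * |θ| →
      ‖uu k R q a B (b / q + θ)‖ ≤ C * AA k q ε B * ((R * |θ|) ^ (-c) + (R : ℝ) ^ (-c)) ∧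
      ‖vv k R q a B (b / q + θ)‖ ≤ C * AA k q ε B * ((R * |θ|) ^ (-c) + (R : ℝ) ^ (-c)))

def G_MULT : Prop :=
  ∀ (k d : ℕ) (ε : ℝ), 3 ≤ k → 1 ≤ d → 0 < ε → ∃ C c : ℝ, 0 < c ∧
    ∀ (R q : ℕ) (a : ℤ) (B : ℝ) (b : Fin d → ℤ) (θ : Fin d → ℝ) (ν₀ : Fin d), 1 ≤ R → 1 ≤ q →
    IsCoprime a (q : ℤ) → (q : ℝ) ≤ (R : ℝ) ^ (1 / 16 : ℝ) → |B| ≤ (R : ℝ) ^ (1 / 16 : ℝ) →
    (∀ ν, |θ ν| ≤ 1 / (2 * q)) → (∀ ν, |θ ν| ≤ |θ ν₀|) →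
    ‖∏ ν, uu k R q a B (b ν / q + θ ν) - ∏ ν, vv k R q a B (b ν / q + θ ν)‖ ≤
      C * (AA k q ε B) ^ d * (min ((R * |θ ν₀|) ^ c) ((R * |θ ν₀|) ^ (-c)) + (R : ℝ) ^ (-c))

/-! ## l^2 theory on Z^d -/

/-- kernel `e(α Σ y_i^k)` on `[0,R)^d` -/
noncomputable def kerT {d : ℕ} (k R : ℕ) (α : ℝ) (y : Fin d → ℤ) : ℂ :=
  if ∀ i, 0 ≤ y i ∧ y i < R then ee (α * ∑ i, ((y i : ℝ)) ^ k) else 0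

/-- `(K * 1_E)(x)` -/
noncomputable def app {d : ℕ} (K : (Fin d → ℤ) → ℂ) (E : Finset (Fin d → ℤ)) (x : Fin d → ℤ) : ℂ :=
  ∑ z ∈ E, K (x - z)

/-- the high frequency kernel at `a/q + B/R^k` -/
noncomputable def Dk {d : ℕ} (k : ℕ) (a : ℤ) (q R : ℕ) (B : ℝ) (y : Fin d → ℤ) : ℂ :=
  ((R : ℂ) ^ d)⁻¹ * kerT k R (a / q + B / (R : ℝ) ^ k) y -
    (VV k B 0) ^ d * ((((q * (R / q) : ℕ) : ℂ) ^ d)⁻¹ * kerT k (q * (R / q)) (a / q) y)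

def G_BES : Prop :=
  ∀ (d : ℕ) (A E X : Finset (Fin d → ℤ)) (K : (Fin d → ℤ) → ℂ), (∀ y, y ∉ A → K y = 0) →
    ∑ x ∈ X, ‖app K E x‖ ^ 2 ≤
      ∫ ξ in Set.pi Set.univ (fun _ : Fin d => Set.Icc (0 : ℝ) 1),
        ‖∑ y ∈ A, K y * ee (∑ i, (y i : ℝ) * ξ i)‖ ^ 2 * ‖∑ z ∈ E, ee (∑ i, (z i : ℝ) * ξ i)‖ ^ 2

def G_PAR : Prop :=
  ∀ (d : ℕ) (E : Finset (Fin d → ℤ)),
    ∫ ξ in Set.pi Set.univ (fun _ : Fin d => Set.Icc (0 : ℝ) 1),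
      ‖∑ z ∈ E, ee (∑ i, (z i : ℝ) * ξ i)‖ ^ 2 = E.card

/-- weak type (1,1) of the one sided dyadic cube maximal function -/
def G_W11 : Prop :=
  ∀ d : ℕ, ∃ C : ℝ, ∀ (s : ℝ) (G X : Finset (Fin d → ℤ)) (g : (Fin d → ℤ) → ℝ), 0 < s →
    (∀ z, 0 ≤ g z) → (∀ z, z ∉ G → g z = 0) →
    (∀ x ∈ X, ∃ j : ℕ, s * (2 : ℝ) ^ (j * d) < ∑ t ∈ box d (2 ^ j), g (x - t)) →
    (X.card : ℝ) * s ≤ C * ∑ z ∈ G, g z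

/-- l^2 bound for averages over cubes in `q Z^d` -/
def G_MAXQ : Prop :=
  ∀ d : ℕ, ∃ C : ℝ, ∀ (q : ℕ) (G X : Finset (Fin d → ℤ)) (g : (Fin d → ℤ) → ℝ)
    (L : (Fin d → ℤ) → ℕ), 1 ≤ q → (∀ z, 0 ≤ g z) → (∀ z, z ∉ G → g z = 0) → (∀ x, 1 ≤ L x) →
    ∑ x ∈ X, (((L x : ℝ) ^ d)⁻¹ * ∑ t ∈ box d (L x), g (x - (q : ℤ) • t)) ^ 2 ≤
      C * ∑ z ∈ G, g z ^ 2

def G_HF : Prop :=
  ∀ (k d : ℕ) (ε : ℝ), 3 ≤ k → 3 * k < d → 0 < ε → ε ≤ 1 / (2 * k) → ∃ C : ℝ,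
    ∀ (q J : ℕ) (a : ℤ) (N : ℝ) (E X : Finset (Fin d → ℤ)), 1 ≤ q → IsCoprime a (q : ℤ) → 0 ≤ N →
    ∑ j ∈ (Finset.range J).filter (fun j => (q : ℝ) ≤ ((2 : ℝ) ^ j) ^ (1 / 16 : ℝ)), ∑ x ∈ X,
      (∫ B in {B : ℝ | N < |B| ∧ |B| ≤ ((2 : ℝ) ^ j) ^ (1 / 16 : ℝ)},
        ‖app (Dk k a q (2 ^ j) B) E x‖) ^ 2 ≤
      C * ((q : ℝ) ^ (-(2 * (d : ℝ) / k) + 2 * d * ε) *
        (1 + N) ^ (2 - 2 * (d : ℝ) / k + 2 * d * ε)) * E.card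

def G_LF : Prop :=
  ∀ (k d : ℕ) (ε : ℝ), 3 ≤ k → 1 ≤ d → 0 < ε → ∃ C : ℝ,
    ∀ (q : ℕ) (a : ℤ) (j : (Fin d → ℤ) → ℕ) (E X : Finset (Fin d → ℤ)), 1 ≤ q →
    IsCoprime a (q : ℤ) → (∀ x, q ≤ 2 ^ (j x)) →
    ∑ x ∈ X, ‖(((q * (2 ^ (j x) / q) : ℕ) : ℂ) ^ d)⁻¹ *
        app (kerT k (q * (2 ^ (j x) / q)) (a / q)) E x‖ ^ 2 ≤
      C * (q : ℝ) ^ (-(2 * (d : ℝ) / k) + 2 * d * ε) * E.card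

def G_MIN1 : Prop :=
  ∀ k : ℕ, 2 ≤ k → ∃ C : ℝ, ∀ (R : ℕ) (α ξ : ℝ), 1 ≤ R →
    (∀ q : ℕ, 1 ≤ q → (q : ℝ) ≤ (R : ℝ) ^ (1 / 16 : ℝ) → ∀ a : ℤ,
      (R : ℝ) ^ (-(k : ℝ) + 1 / 16) < |α - a / q|) →
    ‖fS k R α ξ‖ ≤ C * (R : ℝ) ^ (1 - 1 / (2 : ℝ) ^ (k + 4))

/-- minor arcs -/
def mnr (k R : ℕ) : Set ℝ :=
  {α | (R : ℝ) ^ (-(k : ℝ) + 1 / 16) < α ∧ α ≤ 1 + (R : ℝ) ^ (-(k : ℝ) + 1 / 16) ∧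
    ∀ q : ℕ, 1 ≤ q → (q : ℝ) ≤ (R : ℝ) ^ (1 / 16 : ℝ) → ∀ a : ℤ,
      (R : ℝ) ^ (-(k : ℝ) + 1 / 16) < |α - a / q|}

def G_MIN2 : Prop :=
  ∀ k d : ℕ, 2 ≤ k → 1 ≤ d → ∃ C : ℝ, ∀ (R : ℕ) (E X : Finset (Fin d → ℤ)), 1 ≤ R →
    ∑ x ∈ X, (∫ α in mnr k R, ‖app (kerT k R α) E x‖) ^ 2 ≤
      C * (R : ℝ) ^ (2 * (d : ℝ) * (1 - 1 / (2 : ℝ) ^ (k + 4))) * E.card

/-- cutoff for the low part of the arc -/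
noncomputable def Nq (Q : ℝ) (q : ℕ) : ℝ := if (q : ℝ) ≤ Q then Q / q else 0

def G_DEC : Prop :=
  ∀ (k d R : ℕ) (Q : ℝ) (E : Finset (Fin d → ℤ)) (x : Fin d → ℤ) (n : ℤ), 3 ≤ k → k < d → 2 ≤ R →
    1 ≤ Q → Q ≤ (R : ℝ) ^ (1 / 16 : ℝ) → n < (R : ℤ) ^ k →
    (hits k E x n : ℝ) / (R : ℝ) ^ (d - k) ≤
      2 * Q ^ 2 * ((E.filter fun z => ∀ i, z i ≤ x i ∧ x i < z i + R).card : ℝ) / (R : ℝ) ^ d +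
      (∫ α in mnr k R, ‖app (kerT k R α) E x‖) / (R : ℝ) ^ (d - k) +
      ∑ q ∈ Finset.Icc 1 ⌊(R : ℝ) ^ (1 / 16 : ℝ)⌋₊,
        ∑ a ∈ (Finset.Icc 1 q).filter (fun a => Nat.Coprime a q),
          ((∫ B in {B : ℝ | Nq Q q < |B| ∧ |B| ≤ (R : ℝ) ^ (1 / 16 : ℝ)},
              ‖app (Dk k a q R B) E x‖) +
            (∫ B in {B : ℝ | Nq Q q < |B| ∧ |B| ≤ (R : ℝ) ^ (1 / 16 : ℝ)}, ‖VV k B 0‖ ^ d) *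
              ‖(((q * (R / q) : ℕ) : ℂ) ^ d)⁻¹ * app (kerT k (q * (R / q)) ((a : ℤ) / q)) E x‖)

/-! ## The number of representations -/

/-- the terms of the singular series -/
noncomputable def As (k d q n : ℕ) : ℂ :=
  ∑ a ∈ (Finset.Icc 1 q).filter (fun a => Nat.Coprime a q),
    (GG k a q 0) ^ d * ee (-((a : ℝ) * n / q))

def G_SSM : Prop :=
  ∀ (k d n q₁ q₂ : ℕ), 1 ≤ k → 1 ≤ q₁ → 1 ≤ q₂ → Nat.Coprime q₁ q₂ →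
    As k d (q₁ * q₂) n = As k d q₁ n * As k d q₂ n

def G_SSP : Prop :=
  ∀ (k d n p J : ℕ), 1 ≤ d → p.Prime →
    ∑ j ∈ Finset.range (J + 1), As k d (p ^ j) n =
      (Nat.card {x : Fin d → ZMod (p ^ J) // ∑ i, x i ^ k = (n : ZMod (p ^ J))} : ℂ) /
        (p : ℂ) ^ (J * (d - 1))

def G_SSL : Prop :=
  ∀ (k d n p J : ℕ), 1 ≤ k → p.Prime → p ^ (2 * padicValNat p k + 1) ≤ d →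
    2 * padicValNat p k + 1 ≤ J →
    p ^ ((J - (2 * padicValNat p k + 1)) * (d - 1)) ≤
      Nat.card {x : Fin d → ZMod (p ^ J) // ∑ i, x i ^ k = (n : ZMod (p ^ J))}

def G_SS : Prop :=
  ∀ k : ℕ, 3 ≤ k → ∃ D : ℕ, ∀ d : ℕ, D ≤ d → ∃ (c C : ℝ) (X₀ : ℕ), 0 < c ∧
    (∀ X n : ℕ, ‖∑ q ∈ Finset.Icc 1 X, As k d q n‖ ≤ C) ∧
    (∀ X n : ℕ, (∑ q ∈ Finset.Icc 1 X, As k d q n).im = 0) ∧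
    (∀ X n : ℕ, X₀ ≤ X → c ≤ (∑ q ∈ Finset.Icc 1 X, As k d q n).re)

def G_SINT : Prop :=
  ∀ k d : ℕ, 2 ≤ k → 2 * k < d → ∃ c : ℝ, 0 < c ∧ ∀ u : ℝ, 1 / 2 ≤ u → u ≤ 1 →
    c ≤ (∫ B : ℝ, ee (-(u * B)) * (VV k B 0) ^ d).re

def G_MAJ : Prop :=
  ∀ k : ℕ, 3 ≤ k → ∃ D : ℕ, ∀ d : ℕ, D ≤ d → ∃ C : ℝ, ∀ R n : ℕ, 2 ≤ R → n < R ^ k →
    ‖((orth k d n).card : ℂ) / (R : ℂ) ^ (d - k) -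
      (∑ q ∈ Finset.Icc 1 ⌊(R : ℝ) ^ (1 / 16 : ℝ)⌋₊, As k d q n) *
        ∫ B in {B : ℝ | |B| ≤ (R : ℝ) ^ (1 / 16 : ℝ)},
          ee (-((n : ℝ) / (R : ℝ) ^ k * B)) * (VV k B 0) ^ d‖ ≤ C * (R : ℝ) ^ (-(1 / 8) : ℝ)

def G_NB : Prop :=
  ∀ k : ℕ, 3 ≤ k → ∃ D : ℕ, ∀ d : ℕ, D ≤ d → ∃ (c C : ℝ) (n₀ : ℕ), 0 < c ∧
    (∀ n : ℕ, n₀ ≤ n → c * (n : ℝ) ^ ((d : ℝ) / k - 1) ≤ (orth k d n).card) ∧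
    (∀ n : ℕ, 1 ≤ n → ((orth k d n).card : ℝ) ≤ C * (n : ℝ) ^ ((d : ℝ) / k - 1)) ∧
    (∀ j n : ℕ, n < 2 ^ (j * k) → ((orth k d n).card : ℝ) ≤ C * 2 ^ (j * (d - k)))

end Pool.Agent.Helper42.KS
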