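import Pool.Agent.Helper95.KS.SSP

set_option autoImplicit false

namespace Pool.Agent.Helper42.KS.PkSSM

open Finset
open Pool.Agent.Helper42.KS.PkSSP (std_eq sum_zmod sum_Icc ee_add ee_int)

/-- the summand of the singular series as a function on `ZMod N` -/
noncomputable def HH (k d n N : ℕ) [NeZero N] (a : ZMod N) : ℂ :=
  ((N : ℂ)⁻¹ * ∑ x : ZMod N, (ZMod.stdAddChar (a * x ^ k) : ℂ)) ^ d *
    (ZMod.stdAddChar (-(a * (n : ZMod N))) : ℂ)

open Classical in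
lemma As_eq (k d n N : ℕ) [NeZero N] :
    As k d N n = ∑ a : ZMod N, if IsUnit a then HH k d n N a else 0 := by
  have hN : (N : ℂ) ≠ 0 := by exact_mod_cast NeZero.ne N
  rw [sum_Icc]
  unfold As
  rw [Finset.sum_filter]
  refine Finset.sum_congr rfl fun a _ => ?_
  by_cases h : Nat.Coprime a N
  · rw [if_pos h, if_pos ((ZMod.isUnit_iff_coprime a N).2 h)]
    unfold HH
    rw [Pool.Agent.Helper42.KS.PkSSP.inner, ← mul_assoc, inv_mul_cancel₀ hN, one_mul]
    have h4 := std_eq (N := N) (-((a : ℤ) * (n : ℤ)))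
    push_cast at h4
    rw [h4, show -((a : ℝ) * n) / N = -((a : ℝ) * n / N) from by ring]
  · rw [if_neg h, if_neg (fun h' => h ((ZMod.isUnit_iff_coprime a N).1 h'))]

lemma std_mul (q₁ q₂ : ℕ) [NeZero q₁] [NeZero q₂] [NeZero (q₁ * q₂)] (hc : Nat.Coprime q₁ q₂)
    (U V : ℤ) (hUV : U * q₂ + V * q₁ = 1) (x : ZMod (q₁ * q₂)) :
    (ZMod.stdAddChar x : ℂ) =
      ZMod.stdAddChar ((U : ZMod q₁) * (ZMod.chineseRemainder hc x).1) *
      ZMod.stdAddChar ((V : ZMod q₂) * (ZMod.chineseRemainder hc x).2) := by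
  obtain ⟨m, rfl⟩ := ZMod.intCast_surjective x
  rw [map_intCast (ZMod.chineseRemainder hc)]
  show (ZMod.stdAddChar (m : ZMod (q₁ * q₂)) : ℂ) =
      ZMod.stdAddChar ((U : ZMod q₁) * (m : ZMod q₁)) *
      ZMod.stdAddChar ((V : ZMod q₂) * (m : ZMod q₂))
  rw [← Int.cast_mul, ← Int.cast_mul, std_eq, std_eq, std_eq, ← ee_add]
  congr 1
  have h1 : (q₁ : ℝ) ≠ 0 := by exact_mod_cast NeZero.ne q₁
  have h2 : (q₂ : ℝ) ≠ 0 := by exact_mod_cast NeZero.ne q₂
  have h3 : (U : ℝ) * q₂ + V * q₁ = 1 := by exact_mod_cast hUV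
  push_cast
  field_simp
  linear_combination (-(m : ℝ)) * h3

lemma HH_mul (k d n q₁ q₂ : ℕ) [NeZero q₁] [NeZero q₂] [NeZero (q₁ * q₂)]
    (hc : Nat.Coprime q₁ q₂) (U V : ℤ) (hUV : U * q₂ + V * q₁ = 1) (a : ZMod (q₁ * q₂)) :
    HH k d n (q₁ * q₂) a =
      HH k d n q₁ ((U : ZMod q₁) * (ZMod.chineseRemainder hc a).1) *
      HH k d n q₂ ((V : ZMod q₂) * (ZMod.chineseRemainder hc a).2) := by
  unfold HH
  have h1 : ∑ x : ZMod (q₁ * q₂), (ZMod.stdAddChar (a * x ^ k) : ℂ) =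
      (∑ x : ZMod q₁, (ZMod.stdAddChar ((U : ZMod q₁) * (ZMod.chineseRemainder hc a).1 * x ^ k) : ℂ)) *
      (∑ x : ZMod q₂, (ZMod.stdAddChar ((V : ZMod q₂) * (ZMod.chineseRemainder hc a).2 * x ^ k) : ℂ)) := by
    rw [Finset.sum_mul_sum, ← Finset.sum_product', Finset.univ_product_univ]
    refine Fintype.sum_equiv (ZMod.chineseRemainder hc).toEquiv _ _ ?_
    intro x
    rw [std_mul q₁ q₂ hc U V hUV, map_mul (ZMod.chineseRemainder hc),
      map_pow (ZMod.chineseRemainder hc)]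
    simp only [Prod.fst_mul, Prod.snd_mul, Prod.pow_fst, Prod.pow_snd, mul_assoc]
    rfl
  have h2 : (ZMod.stdAddChar (-(a * (n : ZMod (q₁ * q₂)))) : ℂ) =
      ZMod.stdAddChar (-((U : ZMod q₁) * (ZMod.chineseRemainder hc a).1 * (n : ZMod q₁))) *
      ZMod.stdAddChar (-((V : ZMod q₂) * (ZMod.chineseRemainder hc a).2 * (n : ZMod q₂))) := by
    rw [std_mul q₁ q₂ hc U V hUV, map_neg (ZMod.chineseRemainder hc),
      map_mul (ZMod.chineseRemainder hc), map_natCast (ZMod.chineseRemainder hc)]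
    simp only [Prod.fst_neg, Prod.snd_neg, Prod.fst_mul, Prod.snd_mul, Prod.fst_natCast,
      Prod.snd_natCast, mul_neg, mul_assoc]
  rw [h1, h2]
  push_cast
  rw [mul_inv]
  ring

open Classical in
lemma reindex (N : ℕ) [NeZero N] (f : ZMod N → ℂ) (u : ZMod N) (hu : IsUnit u) :
    ∑ a : ZMod N, (if IsUnit a then f (u * a) else 0) =
      ∑ a : ZMod N, (if IsUnit a then f a else 0) := by
  obtain ⟨u, rfl⟩ := hu
  refine Fintype.sum_equiv (Units.mulLeft u) _ _ ?_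
  intro a
  simp only [Units.mulLeft_apply, Units.isUnit_units_mul]

open Classical in
theorem thm : G_SSM := by
  intro k d n q₁ q₂ _ hq₁ hq₂ hc
  have : NeZero q₁ := ⟨by omega⟩
  have : NeZero q₂ := ⟨by omega⟩
  have : NeZero (q₁ * q₂) := ⟨Nat.mul_ne_zero (by omega) (by omega)⟩
  have hb := Nat.gcd_eq_gcd_ab q₁ q₂
  rw [hc] at hb
  set V := Nat.gcdA q₁ q₂
  set U := Nat.gcdB q₁ q₂
  have hUV : U * q₂ + V * q₁ = 1 := by
    push_cast at hb
    linarith
  have hU : IsUnit ((U : ℤ) : ZMod q₁) := by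
    have h : ((U * q₂ + V * q₁ : ℤ) : ZMod q₁) = 1 := by rw [hUV]; simp
    push_cast at h
    rw [ZMod.natCast_self, mul_zero, add_zero] at h
    exact IsUnit.of_mul_eq_one _ h
  have hV : IsUnit ((V : ℤ) : ZMod q₂) := by
    have h : ((U * q₂ + V * q₁ : ℤ) : ZMod q₂) = 1 := by rw [hUV]; simp
    push_cast at h
    rw [ZMod.natCast_self, mul_zero, zero_add] at h
    exact IsUnit.of_mul_eq_one _ h
  rw [As_eq, As_eq, As_eq, ← reindex q₁ (HH k d n q₁) _ hU, ← reindex q₂ (HH k d n q₂) _ hV,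
    Finset.sum_mul_sum, ← Finset.sum_product', Finset.univ_product_univ]
  refine Fintype.sum_equiv (ZMod.chineseRemainder hc).toEquiv _ _ ?_
  intro a
  have hunit : IsUnit a ↔ IsUnit (ZMod.chineseRemainder hc a).1 ∧
      IsUnit (ZMod.chineseRemainder hc a).2 := by
    rw [← Prod.isUnit_iff]
    exact (MulEquiv.isUnit_map (ZMod.chineseRemainder hc)).symm
  show (if IsUnit a then HH k d n (q₁ * q₂) a else 0) =
    (if IsUnit (ZMod.chineseRemainder hc a).1 then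
      HH k d n q₁ ((U : ZMod q₁) * (ZMod.chineseRemainder hc a).1) else 0) *
    (if IsUnit (ZMod.chineseRemainder hc a).2 then
      HH k d n q₂ ((V : ZMod q₂) * (ZMod.chineseRemainder hc a).2) else 0)
  by_cases h1 : IsUnit (ZMod.chineseRemainder hc a).1
  · by_cases h2 : IsUnit (ZMod.chineseRemainder hc a).2
    · rw [if_pos (hunit.2 ⟨h1, h2⟩), if_pos h1, if_pos h2, HH_mul k d n q₁ q₂ hc U V hUV]
    · rw [if_neg (fun h => h2 (hunit.1 h).2), if_neg h2, mul_zero]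
  · rw [if_neg (fun h => h1 (hunit.1 h).1), if_neg h1, zero_mul]

end Pool.Agent.Helper42.KS.PkSSM
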